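import Mathlib
import Pool.Agent.Helper639.PC
import Pool.Agent.Helper639.ForceCH

set_option autoImplicit false

namespace Pool.Agent.Results.MP_c26d8e_gt.ConsistentCounterexample

open Pool.Agent.Helper639.ForceCH (OmegaOnePreserved CHHolds)

/-- Some forcing notion forces that `ω₁` is preserved and CH holds, and CH implies that there is a
Tychonoff space `X` all of whose finite powers are hereditarily Lindelöf such that no subspace `Z`
of `ℝ ^ X` containing every continuous real-valued function on `X` is Lindelöf. -/
theorem result :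
    (∃ (P : Type) (_ : Preorder P), Nonempty P ∧
      ∀ p : P, p ∈ OmegaOnePreserved P ∧ p ∈ CHHolds P) ∧
    (Cardinal.aleph.{0} 1 = Cardinal.continuum →
      ∃ (X : Type) (_ : TopologicalSpace X), T35Space X ∧
        (∀ n : ℕ, HereditarilyLindelofSpace (Fin n → X)) ∧
        ∀ Z : Set (X → ℝ), {f : X → ℝ | Continuous f} ⊆ Z → ¬ IsLindelof Z) := by
  refine ⟨?_, ?_⟩
  · obtain ⟨P, i, hn, h⟩ := Pool.Agent.Helper639.ForceCH.exists_forcing
    exact ⟨P, i, hn, fun p => ⟨(h p).1, (h p).2.2⟩⟩
  · intro hCH
    exact Helper639.P.main hCH.symm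

end Pool.Agent.Results.MP_c26d8e_gt.ConsistentCounterexample
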